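import Pool.Agent.Y703.QT8.A
import Pool.Agent.Y180.QT12b2b

/-!
Project QT, task Z4: `L`-functions of quadratic twists have no zeros with real part `> 1`, and
`O(log |d| + |t| + 1)` zeros near `it`.
-/

set_option autoImplicit false

namespace Pool.Agent.Y500.QTZ4

open Complex MeasureTheory Filter Topology
open Pool.Agent.Y19.QT
open Pool.Agent.H306R2.RZ (js)
open Pool.Agent.Y180.QT12b2 (cx tsum_eq js_le js_mul js_one lj_le Lq_eq Ep Ep_bound Ep_diff
  summable_two)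
open Pool.Agent.Y703.QT8

variable {Q : ℕ} {lam : ℕ → ℝ}

/-! ### The Dirichlet series -/

/-- the number of divisors, as a complex sequence -/
noncomputable def Dv (n : ℕ) : ℂ := (n.divisors.card : ℂ)

theorem Dv_summable {s : ℂ} (hs : 1 < s.re) : LSeriesSummable Dv s := by
  have h := (LSeriesSummable_one_iff.mpr hs).convolution (LSeriesSummable_one_iff.mpr hs)
  have e : (LSeries.convolution (1 : ℕ → ℂ) (1 : ℕ → ℂ)) = Dv := by
    rw [LSeries.convolution_def]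
    funext n
    simp only [Pi.one_apply, mul_one, Finset.sum_const, nsmul_eq_mul, Dv]
    rw [← Nat.map_div_right_divisors, Finset.card_map]
  rwa [e] at h

theorem cx_summable {a : ℕ → ℝ} (ha : ∀ n, |a n| ≤ (n.divisors.card : ℝ)) {s : ℂ}
    (hs : 1 < s.re) : LSeriesSummable (cx a) s := by
  refine Summable.of_norm_bounded (Dv_summable hs).norm fun n => ?_
  apply LSeries.norm_term_le
  rw [cx, Dv, Complex.norm_real, Real.norm_eq_abs, Complex.norm_natCast]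
  exact ha n

/-- bound on a vertical line -/
theorem cx_norm {a : ℕ → ℝ} (ha : ∀ n, |a n| ≤ (n.divisors.card : ℝ)) {s : ℂ}
    {σ : ℝ} (hσ : 1 < σ) (hs : s.re = σ) :
    ‖LSeries (cx a) s‖ ≤ ∑' n, ‖LSeries.term Dv (σ : ℂ) n‖ := by
  have h1 : Summable fun n => ‖LSeries.term Dv (σ : ℂ) n‖ :=
    (Dv_summable (s := (σ : ℂ)) (by simpa using hσ)).norm
  refine tsum_of_norm_bounded h1.hasSum fun n => ?_
  rw [LSeries.norm_term_eq, LSeries.norm_term_eq, hs, Complex.ofReal_re]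
  split_ifs with hn
  · exact le_rfl
  · rw [cx, Dv, Complex.norm_real, Real.norm_eq_abs, Complex.norm_natCast]
    have : (0 : ℝ) < n := by exact_mod_cast Nat.pos_of_ne_zero hn
    exact div_le_div_of_nonneg_right (ha n) (by positivity)

theorem cx_analytic {a : ℕ → ℝ} (ha : ∀ n, |a n| ≤ (n.divisors.card : ℝ)) :
    AnalyticOnNhd ℂ (LSeries (cx a)) {s : ℂ | 1 < s.re} := by
  refine (LSeries_analyticOnNhd (cx a)).mono ?_
  intro s hs
  have h1 : LSeries.abscissaOfAbsConv (cx a) ≤ ((1 : ℝ) : EReal) :=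
    LSeries.abscissaOfAbsConv_le_of_forall_lt_LSeriesSummable fun y hy =>
      cx_summable ha (by simpa using hy)
  refine lt_of_le_of_lt h1 ?_
  exact_mod_cast hs

/-- the coefficients of `1 / Lq` -/
noncomputable def mj (Q : ℕ) (lam : ℕ → ℝ) (d : ℤ) (n : ℕ) : ℝ := muE Q lam n * js d n

theorem mj_le (H : Hecke Q lam) (d : ℤ) (n : ℕ) : |mj Q lam d n| ≤ (n.divisors.card : ℝ) := by
  unfold mj
  rw [abs_mul]
  have h1 := (Pool.Agent.Y180.QT12b1.T12b1 Q lam H).2.2.1 n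
  calc |muE Q lam n| * |js d n| ≤ |muE Q lam n| * 1 :=
        mul_le_mul_of_nonneg_left (js_le d n) (abs_nonneg _)
    _ ≤ _ := by rw [mul_one]; exact h1

theorem muE_zero (Q : ℕ) (lam : ℕ → ℝ) : muE Q lam 0 = 0 := by simp [muE]

theorem conv_mj (H : Hecke Q lam) (d : ℤ) :
    LSeries.convolution (cx (mj Q lam d)) (cx fun n => lam n * js d n) = LSeries.delta := by
  rw [LSeries.convolution_def]
  funext n
  by_cases hn : n = 0
  · subst hn
    simp [LSeries.delta]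
  · have h4 := (Pool.Agent.Y180.QT12b1.T12b1 Q lam H).1 n (Nat.one_le_iff_ne_zero.2 hn)
    simp only [cx, LSeries.delta, mj]
    have h5 : (∑ x ∈ n.divisorsAntidiagonal, ((muE Q lam x.1 * js d x.1 : ℝ) : ℂ) *
          ((lam x.2 * js d x.2 : ℝ) : ℂ)) =
        ((((∑ x ∈ n.divisorsAntidiagonal, muE Q lam x.1 * lam x.2) * js d n : ℝ)) : ℂ) := by
      rw [Finset.sum_mul]
      push_cast
      refine Finset.sum_congr rfl fun x hx => ?_
      obtain ⟨h1, h2⟩ := Nat.ne_zero_of_mem_divisorsAntidiagonal hx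
      have h3 : x.1 * x.2 = n := (Nat.mem_divisorsAntidiagonal.1 hx).1
      rw [← h3, js_mul d _ _ h1 h2]
      push_cast
      ring
    rw [h5, h4]
    by_cases h1 : n = 1
    · subst h1
      rw [if_pos rfl, if_pos rfl, js_one]
      norm_num
    · rw [if_neg h1, if_neg h1]
      norm_num

theorem Lq_analytic (T : Twists Q lam) {d : ℤ} (hd : Squarefree d) :
    AnalyticOnNhd ℂ (T.Lq d) {s : ℂ | 1 / 4 < s.re} := by
  have h1 : DifferentiableOn ℂ (T.Lq d) {s : ℂ | 1 / 4 < s.re} :=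
    (ell_diff T hd).differentiableOn.mul (Ep_diff T hd)
  exact h1.analyticOnNhd (isOpen_lt continuous_const Complex.continuous_re)

theorem half_preconn (a : ℝ) : IsPreconnected {s : ℂ | a < s.re} :=
  (convex_halfSpace_re_gt a).isPreconnected

theorem Lq_mul (T : Twists Q lam) {d : ℤ} (hd : Squarefree d) {s : ℂ} (hs : 1 < s.re) :
    T.Lq d s * LSeries (cx (mj Q lam d)) s = 1 := by
  have h8 : ∀ s : ℂ, 2 < s.re → T.ell d s = ∑' n : ℕ, (T.cf d n : ℂ) * (n : ℂ) ^ (-s) :=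
    fun s hs => ell_dir T hd hs
  have hmj := cx_analytic (mj_le T.hecke d)
  have hL : AnalyticOnNhd ℂ (T.Lq d) {s : ℂ | 1 < s.re} := by
    refine (Lq_analytic T hd).mono ?_
    intro s (hs : 1 < s.re)
    show 1 / 4 < s.re
    linarith
  have key : ∀ s : ℂ, 2 < s.re → T.Lq d s * LSeries (cx (mj Q lam d)) s = 1 := by
    intro s hs
    rw [Lq_eq T hd h8 hs, mul_comm, ← LSeries_convolution'
      (cx_summable (mj_le T.hecke d) (by linarith)) (summable_two (lj_le T.hecke d) hs),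
      conv_mj T.hecke d, LSeries_delta]
    rfl
  have h3 : (fun s => T.Lq d s * LSeries (cx (mj Q lam d)) s) =ᶠ[𝓝 (3 : ℂ)] fun _ => 1 := by
    have : {s : ℂ | 2 < s.re} ∈ 𝓝 (3 : ℂ) :=
      (isOpen_lt continuous_const Complex.continuous_re).mem_nhds (by norm_num)
    filter_upwards [this] with s hs
    exact key s hs
  have h4 := (hL.mul hmj).eqOn_of_preconnected_of_eventuallyEq
    (analyticOnNhd_const (v := (1 : ℂ))) (half_preconn 1) (z₀ := 3)
    (by show (1 : ℝ) < (3 : ℂ).re; norm_num) h3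
  exact h4 hs

/-! ### The upper bound -/

theorem ell_bound (T : Twists Q lam) : ∃ (C : ℝ) (A : ℕ), 0 < C ∧ ∀ (d : ℤ) (s : ℂ), Squarefree d →
    1 / 4 ≤ s.re → s.re ≤ 3 → ‖T.ell d s‖ ≤ C * |(d : ℝ)| ^ A * Real.exp (2 * |s.im|) := by
  have hpi := Real.pi_gt_three
  have hpi4 := Real.pi_lt_four
  have hc := T.one_le_c
  obtain ⟨c, hc0, hg⟩ := gamma_low
  have hC1 : 0 < (2 * Real.pi * T.c) ^ 4 * c⁻¹ * (4 * T.c * 120) := by positivity
  refine ⟨(2 * Real.pi * T.c) ^ 4 * c⁻¹ * (4 * T.c * 120) * T.c ^ 8, 8, by positivity,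
    fun d s hd hs1 hs2 => ?_⟩
  have h0 : |(0 : ℝ)| < Real.pi / 2 := by rw [abs_zero]; positivity
  have hq := q_pos T hd
  have hd1 := one_le_abs hd
  set D := T.c * |(d : ℝ)| with hD
  have hD1 : 1 ≤ D := by nlinarith
  have hqD : T.q d ≤ D := T.q_upper d hd
  have hqc : (T.q d)⁻¹ ≤ T.c := by
    have := q_low T hd
    rw [inv_le_comm₀ hq (by linarith)]; exact this
  have hre : (s + 1 / 2).re = s.re + 1 / 2 := by simp
  have him : (s + 1 / 2).im = s.im := by simp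
  have hN : |(s + 1 / 2).re - 1| ≤ ((3 : ℕ) : ℝ) := by
    rw [hre, abs_le]; constructor <;> push_cast <;> linarith
  have hx0 : x0 T d 0 = (T.q d)⁻¹ := by unfold x0; rw [Real.cos_zero, one_div]
  have hM : ‖MM T d 0 (s + 1 / 2)‖ ≤ 4 * T.c * 120 * D ^ 8 := by
    refine ((F_dec T hd h0).conv_norm 3 hN).2.trans ?_
    unfold Kd cB
    rw [hx0, inv_inv]
    have e1 : T.q d ^ 2 + T.q d ^ 3 ≤ 2 * D ^ 3 := by
      have : T.q d ^ 2 ≤ D ^ 2 := by gcongr
      have : T.q d ^ 3 ≤ D ^ 3 := by gcongr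
      have : D ^ 2 ≤ D ^ 3 := pow_le_pow_right₀ hD1 (by norm_num)
      linarith
    have e2 : (Real.pi * (T.q d)⁻¹)⁻¹ ≤ D := by
      rw [mul_inv, inv_inv]
      have : Real.pi⁻¹ ≤ 1 := inv_le_one_of_one_le₀ (by linarith)
      calc Real.pi⁻¹ * T.q d ≤ 1 * D := by gcongr
        _ = D := one_mul D
    calc 2 * (T.c * (T.q d ^ 2 + T.q d ^ 3)) *
          (((3 + 2).factorial : ℕ) * (Real.pi * (T.q d)⁻¹)⁻¹ ^ (3 + 2))
        ≤ 2 * (T.c * (2 * D ^ 3)) * (((3 + 2).factorial : ℕ) * D ^ (3 + 2)) := by gcongr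
      _ = _ := by norm_num [Nat.factorial]; ring
  have hpow : ‖(2 * Real.pi / (T.q d : ℂ)) ^ (s + 1 / 2)‖ ≤ (2 * Real.pi * T.c) ^ 4 := by
    rw [q_cast, Complex.norm_cpow_eq_rpow_re_of_pos (by positivity), hre]
    have hA1 : 1 ≤ 2 * Real.pi * T.c := by nlinarith
    calc (2 * Real.pi / T.q d) ^ (s.re + 1 / 2) ≤ (2 * Real.pi * T.c) ^ (s.re + 1 / 2) := by
          apply Real.rpow_le_rpow (by positivity) _ (by linarith)
          rw [div_eq_mul_inv]; gcongr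
      _ ≤ (2 * Real.pi * T.c) ^ ((4 : ℕ) : ℝ) :=
          Real.rpow_le_rpow_of_exponent_le hA1 (by push_cast; linarith)
      _ = (2 * Real.pi * T.c) ^ 4 := Real.rpow_natCast _ _
  have hG := hg (s + 1 / 2) (by rw [hre]; linarith) (by rw [hre]; linarith)
  rw [him] at hG
  have hG' : ‖Complex.Gamma (s + 1 / 2)‖⁻¹ ≤ c⁻¹ * Real.exp (2 * |s.im|) := by
    have h1 : c⁻¹ * Real.exp (Real.pi / 2 * |s.im|) =
        (c * Real.exp (-(Real.pi / 2 * |s.im|)))⁻¹ := by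
      rw [mul_inv, Real.exp_neg, inv_inv]
    have h2 : ‖Complex.Gamma (s + 1 / 2)‖⁻¹ ≤ c⁻¹ * Real.exp (Real.pi / 2 * |s.im|) := by
      rw [h1]
      exact inv_anti₀ (by positivity) hG
    refine h2.trans ?_
    have h3 : Real.pi / 2 * |s.im| ≤ 2 * |s.im| := by
      have := abs_nonneg s.im
      nlinarith
    gcongr
  rw [ell_eq, norm_mul, norm_mul, norm_inv]
  calc ‖(2 * Real.pi / (T.q d : ℂ)) ^ (s + 1 / 2)‖ * ‖Complex.Gamma (s + 1 / 2)‖⁻¹ *
        ‖MM T d 0 (s + 1 / 2)‖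
      ≤ (2 * Real.pi * T.c) ^ 4 * (c⁻¹ * Real.exp (2 * |s.im|)) * (4 * T.c * 120 * D ^ 8) := by
        gcongr
    _ = _ := by rw [hD]; ring

/-! ### Counting zeros -/

theorem count {f : ℂ → ℂ} {c : ℂ} {r R M : ℝ} (hr : 0 < r) (hrR : r < R) (hM : 1 ≤ M)
    (hf : AnalyticOnNhd ℂ f (Metric.closedBall c R)) (hc : f c ≠ 0)
    (hb : ∀ z ∈ Metric.closedBall c R, ‖f z‖ ≤ M) (S : Finset ℂ)
    (hS : ∀ ρ ∈ S, ρ ∈ Metric.closedBall c r) :
    (∀ ρ ∈ S, analyticOrderAt f ρ ≠ ⊤) ∧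
    ∑ ρ ∈ S, ((analyticOrderAt f ρ).toNat : ℝ) ≤ Real.log (M / ‖f c‖) / Real.log (R / r) := by
  classical
  have hR : 0 < R := hr.trans hrR
  have hRa : |R| = R := abs_of_pos hR
  have hra : |r| = r := abs_of_pos hr
  have hcR : c ∈ Metric.closedBall c R := Metric.mem_closedBall_self hR.le
  have hsub : Metric.closedBall c r ⊆ Metric.closedBall c R :=
    Metric.closedBall_subset_closedBall hrR.le
  have htop : ∀ ρ ∈ Metric.closedBall c R, analyticOrderAt f ρ ≠ ⊤ := by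
    intro ρ hρ
    refine hf.analyticOrderAt_ne_top_of_isPreconnected
      (convex_closedBall c R).isPreconnected hcR hρ ?_
    rw [(hf c hcR).analyticOrderAt_eq_zero.mpr hc]
    exact ENat.zero_ne_top
  refine ⟨fun ρ hρ => htop ρ (hsub (hS ρ hρ)), ?_⟩
  have h := AnalyticOnNhd.sum_divisor_le (c := c) (r := r) (R := R) (M := M) (f := f)
    (by rw [hra]; exact hr) (by rw [hra, hRa]; exact hrR) hM (by rw [hRa]; exact hf) hc
    (by rw [hRa]; exact fun z hz => hb z (Metric.sphere_subset_closedBall hz))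
  rw [hra] at h
  refine le_trans ?_ h
  have hfr : AnalyticOnNhd ℂ f (Metric.closedBall c r) := hf.mono hsub
  set Dv := MeromorphicOn.divisor f (Metric.closedBall c r) with hDv
  have hval : ∀ ρ ∈ Metric.closedBall c r, Dv ρ = ((analyticOrderAt f ρ).toNat : ℤ) := by
    intro ρ hρ
    rw [hDv, MeromorphicOn.AnalyticOnNhd.divisor_apply hfr hρ]
    obtain ⟨k, hk⟩ := ENat.ne_top_iff_exists.mp (htop ρ (hsub hρ))
    rw [← hk]
    simp
  have hnn : ∀ u, 0 ≤ Dv u := by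
    intro u
    by_cases hu : u ∈ Metric.closedBall c r
    · rw [hval u hu]; positivity
    · rw [Function.locallyFinsuppWithin.apply_eq_zero_of_notMem _ hu]
  have hfin : (Function.support fun u => Dv u).Finite :=
    Dv.finiteSupport (isCompact_closedBall c r)
  have h1 : ∑ᶠ u, Dv u = ∑ u ∈ hfin.toFinset ∪ S, Dv u := by
    apply finsum_eq_sum_of_support_subset
    intro u hu
    rw [Finset.coe_union]
    left
    simpa using hu
  have h2 : ∑ ρ ∈ S, Dv ρ ≤ ∑ u ∈ hfin.toFinset ∪ S, Dv u :=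
    Finset.sum_le_sum_of_subset_of_nonneg Finset.subset_union_right fun u _ _ => hnn u
  have h3 : ∑ ρ ∈ S, Dv ρ = ((∑ ρ ∈ S, ((analyticOrderAt f ρ).toNat : ℤ)) : ℤ) :=
    Finset.sum_congr rfl fun ρ hρ => hval ρ (hS ρ hρ)
  have h4 : ∑ ρ ∈ S, ((analyticOrderAt f ρ).toNat : ℝ) = ((∑ ρ ∈ S, Dv ρ : ℤ) : ℝ) := by
    rw [h3]; push_cast; rfl
  rw [h4, h1]
  exact_mod_cast h2

/-- Z4: there are no zeros with real part `> 1`, and at most `O(log |d| + |t| + 1)` zeros near `it` -/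
theorem Z4 {Q : ℕ} {lam : ℕ → ℝ} (T : Twists Q lam) :
    (∀ (d : ℤ) (s : ℂ), Squarefree d → 1 < s.re → T.Lq d s ≠ 0) ∧
    ∃ C : ℝ, 0 < C ∧ ∀ (d : ℤ) (t : ℝ) (S : Finset ℂ), Squarefree d →
      (∀ ρ ∈ S, T.Lq d ρ = 0 ∧ 1 / 2 ≤ ρ.re ∧ |ρ.im - t| ≤ 1 / 4) →
      (∀ ρ ∈ S, analyticOrderAt (T.Lq d) ρ ≠ ⊤) ∧
      ∑ ρ ∈ S, ((analyticOrderAt (T.Lq d) ρ).toNat : ℝ) ≤
        C * (Real.log (|(d : ℝ)| + 1) + |t| + 1) := by
  have hne : ∀ (d : ℤ) (s : ℂ), Squarefree d → 1 < s.re → T.Lq d s ≠ 0 := by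
    intro d s hd hs h0
    have := Lq_mul T hd hs
    rw [h0, zero_mul] at this
    exact zero_ne_one this
  refine ⟨hne, ?_⟩
  obtain ⟨C1, A, hC1, hb⟩ := ell_bound T
  obtain ⟨M0, hM0⟩ : ∃ M0, M0 = ∑' n, ‖LSeries.term Dv ((3 / 2 : ℝ) : ℂ) n‖ := ⟨_, rfl⟩
  have hc1 := T.one_le_c
  have hM0n : 0 ≤ M0 := by rw [hM0]; exact tsum_nonneg fun n => norm_nonneg _
  -- the constants
  set R : ℝ := 6 / 5 with hR
  set r : ℝ := 11 / 10 with hr
  have hlogR : 0 < Real.log (R / r) := Real.log_pos (by rw [hR, hr]; norm_num)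
  set K : ℝ := (C1 * T.c + 1) * (M0 + 1) with hK
  have hK1 : 1 ≤ K := by
    rw [hK]
    have h1 : 1 ≤ C1 * T.c + 1 := by
      have : 0 ≤ C1 * T.c := by positivity
      linarith
    have h2 : 1 ≤ M0 + 1 := by linarith
    nlinarith
  have hlogK : 0 ≤ Real.log K := Real.log_nonneg hK1
  set C2 : ℝ := Real.log K + A + 6 with hC2
  have hC2p : 0 < C2 := by positivity
  refine ⟨C2 / Real.log (R / r), by positivity, fun d t S hd hS => ?_⟩
  have hd1 := one_le_abs hd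
  set c : ℂ := ((3 / 2 : ℝ) : ℂ) + (t : ℂ) * I with hc
  have hcre : c.re = 3 / 2 := by rw [hc]; simp
  have hcim : c.im = t := by rw [hc]; simp
  -- geometry
  have hgeo : ∀ z ∈ Metric.closedBall c R, 3 / 10 ≤ z.re ∧ z.re ≤ 27 / 10 ∧ |z.im| ≤ |t| + 6 / 5 := by
    intro z hz
    rw [Metric.mem_closedBall, dist_eq_norm, hR] at hz
    have h1 := (Complex.abs_re_le_norm (z - c)).trans hz
    have h2 := (Complex.abs_im_le_norm (z - c)).trans hz
    rw [Complex.sub_re, hcre, abs_le] at h1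
    rw [Complex.sub_im, hcim] at h2
    refine ⟨by linarith, by linarith, ?_⟩
    calc |z.im| = |t + (z.im - t)| := by ring_nf
      _ ≤ |t| + |z.im - t| := abs_add_le _ _
      _ ≤ _ := by linarith
  have hfan : AnalyticOnNhd ℂ (T.Lq d) (Metric.closedBall c R) := by
    refine (Lq_analytic T hd).mono ?_
    intro z hz
    show 1 / 4 < z.re
    linarith [(hgeo z hz).1]
  have hcne : T.Lq d c ≠ 0 := hne d c hd (by rw [hcre]; norm_num)
  set M : ℝ := (C1 * T.c + 1) * (|(d : ℝ)| + 1) ^ A * Real.exp (2 * (|t| + 6 / 5)) with hM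
  have hbase : 1 ≤ |(d : ℝ)| + 1 := by linarith
  have hpow1 : 1 ≤ (|(d : ℝ)| + 1) ^ A := one_le_pow₀ hbase
  have hexp1 : 1 ≤ Real.exp (2 * (|t| + 6 / 5)) := Real.one_le_exp (by positivity)
  have hCc : 0 < C1 * T.c := by positivity
  have hM1 : 1 ≤ M := by
    rw [hM]
    have h1 : 1 ≤ (C1 * T.c + 1) * (|(d : ℝ)| + 1) ^ A := by nlinarith
    nlinarith
  have hbd : ∀ z ∈ Metric.closedBall c R, ‖T.Lq d z‖ ≤ M := by
    intro z hz
    obtain ⟨h1, h2, h3⟩ := hgeo z hz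
    have e1 := hb d z hd (by linarith) (by linarith)
    have e2 := Ep_bound T hd (s := z) (by linarith)
    have e3 : T.Lq d z = T.ell d z * Ep T d z := rfl
    rw [e3, norm_mul]
    calc ‖T.ell d z‖ * ‖Ep T d z‖ ≤ (C1 * |(d : ℝ)| ^ A * Real.exp (2 * |z.im|)) * T.c := by gcongr
      _ = (C1 * T.c) * |(d : ℝ)| ^ A * Real.exp (2 * |z.im|) := by ring
      _ ≤ (C1 * T.c + 1) * (|(d : ℝ)| + 1) ^ A * Real.exp (2 * (|t| + 6 / 5)) := by
          gcongr
          · linarith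
          · linarith
      _ = M := by rw [hM]
  have hSr : ∀ ρ ∈ S, ρ ∈ Metric.closedBall c r := by
    intro ρ hρ
    obtain ⟨h1, h2, h3⟩ := hS ρ hρ
    have h4 : ρ.re ≤ 1 := by
      by_contra hh
      exact hne d ρ hd (not_le.mp hh) h1
    rw [Metric.mem_closedBall, dist_eq_norm, hr]
    have h5 : ‖ρ - c‖ ^ 2 ≤ (11 / 10) ^ 2 := by
      rw [← Complex.normSq_eq_norm_sq, Complex.normSq_apply, Complex.sub_re, Complex.sub_im, hcre,
        hcim]
      have h6 := abs_le.mp h3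
      nlinarith [h6.1, h6.2]
    exact le_of_sq_le_sq h5 (by norm_num)
  obtain ⟨g1, g2⟩ := count (f := T.Lq d) (c := c) (r := r) (R := R) (M := M)
    (by rw [hr]; norm_num) (by rw [hr, hR]; norm_num) hM1 hfan hcne hbd S hSr
  refine ⟨g1, g2.trans ?_⟩
  rw [div_mul_eq_mul_div]
  apply div_le_div_of_nonneg_right _ hlogR.le
  -- lower bound at the centre
  have hlow : 1 ≤ ‖T.Lq d c‖ * (M0 + 1) := by
    have e1 := Lq_mul T hd (s := c) (by rw [hcre]; norm_num)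
    have e2 : ‖T.Lq d c‖ * ‖LSeries (cx (mj Q lam d)) c‖ = 1 := by
      rw [← norm_mul, e1, norm_one]
    have e3 : ‖LSeries (cx (mj Q lam d)) c‖ ≤ M0 := by
      rw [hM0]
      exact cx_norm (mj_le T.hecke d) (by norm_num) hcre
    calc 1 = ‖T.Lq d c‖ * ‖LSeries (cx (mj Q lam d)) c‖ := e2.symm
      _ ≤ ‖T.Lq d c‖ * (M0 + 1) := by gcongr; linarith
  have hnpos : 0 < ‖T.Lq d c‖ := norm_pos_iff.mpr hcne
  have h7 : M / ‖T.Lq d c‖ ≤ K * (|(d : ℝ)| + 1) ^ A * Real.exp (2 * (|t| + 6 / 5)) := by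
    rw [div_le_iff₀ hnpos, hM, hK]
    have h8 : 0 ≤ (C1 * T.c + 1) * (|(d : ℝ)| + 1) ^ A * Real.exp (2 * (|t| + 6 / 5)) := by
      positivity
    calc (C1 * T.c + 1) * (|(d : ℝ)| + 1) ^ A * Real.exp (2 * (|t| + 6 / 5))
        ≤ ((C1 * T.c + 1) * (|(d : ℝ)| + 1) ^ A * Real.exp (2 * (|t| + 6 / 5))) *
          (‖T.Lq d c‖ * (M0 + 1)) := le_mul_of_one_le_right h8 hlow
      _ = _ := by ring
  have hMpos : 0 < M / ‖T.Lq d c‖ := by positivity
  have hKpos : 0 < K := by linarith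
  have h9 : Real.log (M / ‖T.Lq d c‖) ≤
      Real.log K + A * Real.log (|(d : ℝ)| + 1) + 2 * (|t| + 6 / 5) := by
    refine (Real.log_le_log hMpos h7).trans ?_
    rw [Real.log_mul (by positivity) (by positivity), Real.log_mul (by positivity) (by positivity),
      Real.log_exp, Real.log_pow]
  refine h9.trans ?_
  have hl0 : 0 ≤ Real.log (|(d : ℝ)| + 1) := Real.log_nonneg hbase
  have ht0 := abs_nonneg t
  have hA0 : (0 : ℝ) ≤ A := Nat.cast_nonneg A
  rw [hC2]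
  nlinarith [mul_nonneg hlogK hl0, mul_nonneg hlogK ht0, mul_nonneg hA0 hl0, mul_nonneg hA0 ht0]

end Pool.Agent.Y500.QTZ4
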